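import Mathlib
import Pool.Agent.H45.R3.Asm
import Pool.Agent.H45.R3.Carr
import Pool.Agent.H45.R3.Coo
import Pool.Agent.H45.R3.Ext
import Pool.Agent.H45.R3.Final
import Pool.Agent.H45.R3.Fiv
import Pool.Agent.H45.R3.Red
import Pool.Agent.H45.R3.Siz
import Pool.Agent.H15.R3.Aff
import Pool.Agent.H15.R3.Deg
import Pool.Agent.H15.R3.Four
import Pool.Agent.H15.R3.Pair
import Pool.Agent.H15.R3.Sep
import Pool.Agent.H15.R3.Van
import Pool.Agent.H36.R3.LCom
import Pool.Agent.H36.R3.LSup
import Pool.Agent.H36.R3.Ura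
import Pool.Agent.H36.R3.Val

set_option autoImplicit false

namespace Pool.Agent.Results.MP_d4ab52_co.CubeOrder

open Pool.Agent.H45.R3 Pool.Agent.H15.R3 Pool.Agent.H36.R3

/-- Let `p` be an odd prime and `b ≤ 3`.  If an abelian group `G` of order `p ^ (2 * b)` contains a
`(p ^ b, p ^ b, p ^ b, 1)` relative difference set relative to a subgroup of order `p ^ b`, then `G` is
elementary abelian.  The case `b = 3` is new. -/
theorem result :
    ∀ (p b : ℕ), p.Prime → Odd p → b ≤ 3 →
    ∀ (G : Type) [AddCommGroup G] [Fintype G] [DecidableEq G],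
    Fintype.card G = p ^ (2 * b) →
    ∀ (N : AddSubgroup G), Nat.card N = p ^ b →
    ∀ (D : Finset G), D.card = p ^ b →
    (∀ g : G, g ∉ N → ((D ×ˢ D).filter (fun x => x.1 - x.2 = g)).card = 1) →
    (∀ g : G, g ∈ N → g ≠ 0 → ((D ×ˢ D).filter (fun x => x.1 - x.2 = g)).card = 0) →
    ∀ g : G, p • g = 0 := by
  intro p b hp hodd hb G _ _ _ hG N hN D hD hD1 hD0
  have : Fact p.Prime := ⟨hp⟩
  have hVAN : VAN := van
  have hURA : URA := ura
  have hVAL : VAL := val
  have hLINE : LINE := line (lsup hURA) (lcom hVAN) ldir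
  have hC1 : C1 := c1 hLINE sep
  have hFIV : FIV := fiv hVAL mom hVAN
  have hAFX : AFX := afx (aff hVAL mom pair hFIV) hVAL mom degb
  have hC2 : C2 := c2 hAFX slo (fin one)
  have hWAL : WAL := wal (carr nrm) ext
  have hB : RDSB := rdsb hC1 hC2 coo1 coo2 (gra siz) hWAL
  refine final (rnk mpd sqm) red hB p b hb G N D ?_
  exact
    { p2 := fun h => by rw [h] at hodd; exact absurd hodd (by decide)
      cardG := hG
      cardN := hN
      cardD := hD
      rep1 := hD1
      rep0 := hD0 }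

end Pool.Agent.Results.MP_d4ab52_co.CubeOrder
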