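import Mathlib
import Pool.Agent.H58.LL.Top

set_option autoImplicit false

namespace Pool.Agent.Results.MP_d4ab52_co.LargestFactors

/-- Let `p` be an odd prime and let `G` be an abelian group of order `p ^ (2 * b)` that contains a
`(p ^ b, p ^ b, p ^ b, 1)` relative difference set `D` relative to a subgroup `N` of order `p ^ b`.
Then for every `k ≥ 1` the subgroup `p ^ k • G` is either trivial or has at least `p ^ 3` elements.
Thus, if `G` is not elementary abelian, then `G` has at least three cyclic direct factors of the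
largest order `exp G`. -/
theorem result :
    ∀ (p b : ℕ), p.Prime → Odd p →
    ∀ (G : Type) [AddCommGroup G] [Fintype G] [DecidableEq G],
    Fintype.card G = p ^ (2 * b) →
    ∀ (N : AddSubgroup G), Nat.card N = p ^ b →
    ∀ (D : Finset G), D.card = p ^ b →
    (∀ g : G, g ∉ N → ((D ×ˢ D).filter (fun x => x.1 - x.2 = g)).card = 1) →
    (∀ g : G, g ∈ N → g ≠ 0 → ((D ×ˢ D).filter (fun x => x.1 - x.2 = g)).card = 0) →
    ∀ k : ℕ, 1 ≤ k →
      (∀ g : G, p ^ k • g = 0) ∨
        p ^ 3 ≤ (Finset.univ.image (fun g : G => p ^ k • g)).card :=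
  Pool.Agent.H58.LL.top

end Pool.Agent.Results.MP_d4ab52_co.LargestFactors
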