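import Mathlib
import Pool.Agent.H45.R4.Weight

set_option autoImplicit false

namespace Pool.Agent.Results.MP_d4ab52_co.WeightBound

/-- Let `p` be an odd prime and let `G` be an abelian group that contains a `(p ^ b, p ^ b, p ^ b, 1)` relative
difference set `D` relative to a subgroup `N` of order `p ^ b`.  If `f i : G → ZMod (p ^ k i)` are homomorphisms,
`l i ≤ k i`, and `N` is the common kernel of the homomorphisms `p ^ (k i - l i) • f i`, then
`b ≤ 2 * ∑ i, l i / p ^ (k i - l i)`.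

For instance, if `G = (Z/p^2)^s × (Z/p)^(2b-2s)` and `N` is elementary abelian and contains `p G`, one can take `s`
pairs `(k i, l i) = (2, 1)` and `b - s` pairs `(1, 1)`, and gets `2 (p - 1) s ≤ p b`. -/
theorem result :
    ∀ (p b : ℕ), p.Prime → Odd p →
    ∀ (G : Type) [AddCommGroup G] [Fintype G] [DecidableEq G],
    Fintype.card G = p ^ (2 * b) →
    ∀ (N : AddSubgroup G), Nat.card N = p ^ b →
    ∀ (D : Finset G), D.card = p ^ b →
    (∀ g : G, g ∉ N → ((D ×ˢ D).filter (fun x => x.1 - x.2 = g)).card = 1) →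
    (∀ g : G, g ∈ N → g ≠ 0 → ((D ×ˢ D).filter (fun x => x.1 - x.2 = g)).card = 0) →
    ∀ (ι : Type) [Fintype ι] (k l : ι → ℕ) (f : ∀ i, G →+ ZMod (p ^ k i)),
      (∀ i, l i ≤ k i) → (∀ g : G, g ∈ N ↔ ∀ i, p ^ (k i - l i) • f i g = 0) →
      (b : ℚ) ≤ 2 * ∑ i, (l i : ℚ) / (p : ℚ) ^ (k i - l i) := by
  intro p b hp hodd G _ _ _ _ N hN D hD hD1 hD0 ι _ k l f hl hker
  have hF : Fact p.Prime := ⟨hp⟩
  exact Pool.Agent.H45.R4.weight (fun h => by rw [h] at hodd; exact absurd hodd (by decide)) N D hD hN hD1 hD0 k l hl f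
    hker

end Pool.Agent.Results.MP_d4ab52_co.WeightBound
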